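import Pool.Agent.H466.HD.SA

/-!
# HD-EUL: an Euler product bound

Only the inequality `∑_{p < n} (p^{-s} - p^{-t}) ≤ log (ζ(s) / ζ(t))` for `1 < s ≤ t` and
`1 / (s - 1) ≤ ζ(s) ≤ 1 + 1 / (s - 1)` are used.
-/

set_option autoImplicit false

namespace Pool.Agent.H734.HD

open Filter Topology Finset

noncomputable section

/-- `n ↦ n^{-s}` -/
def zf (s : ℝ) (hs : s ≠ 0) : ℕ →*₀ ℝ where
  toFun n := (n : ℝ) ^ (-s)
  map_zero' := by simp [Real.zero_rpow (neg_ne_zero.2 hs)]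
  map_one' := by simp
  map_mul' m n := by
    push_cast
    exact Real.mul_rpow (by positivity) (by positivity)

/-- zeta -/
def Z (s : ℝ) : ℝ := ∑' n : ℕ, (n : ℝ) ^ (-s)

theorem summ {s : ℝ} (hs : 1 < s) : Summable fun n : ℕ => (n : ℝ) ^ (-s) :=
  Real.summable_nat_rpow.2 (by linarith)

/-- the tangent line -/
theorem tangent {a b s : ℝ} (ha : 0 < a) (hb : 0 < b) (hs : 1 ≤ s) :
    a ^ (1 - s) + (1 - s) * (a ^ (-s) * (b - a)) ≤ b ^ (1 - s) := by
  have h1 : b ^ (1 - s) = a ^ (1 - s) * (b / a) ^ (1 - s) := by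
    rw [← Real.mul_rpow ha.le (by positivity), mul_div_cancel₀ _ ha.ne']
  have h2 : 1 + (1 - s) * (b / a - 1) ≤ (b / a) ^ (1 - s) := by
    rw [Real.rpow_def_of_pos (by positivity)]
    have h3 := Real.add_one_le_exp (Real.log (b / a) * (1 - s))
    have h4 := Real.log_le_sub_one_of_pos (show 0 < b / a by positivity)
    nlinarith
  have h5 : a ^ (1 - s) = a ^ (-s) * a := by
    have h6 : 1 - s = -s + 1 := by ring
    rw [h6, Real.rpow_add ha, Real.rpow_one]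
  have h7 : 0 < a ^ (1 - s) := Real.rpow_pos_of_pos ha _
  calc a ^ (1 - s) + (1 - s) * (a ^ (-s) * (b - a))
      = a ^ (1 - s) * (1 + (1 - s) * (b / a - 1)) := by
        rw [h5]
        field_simp
    _ ≤ a ^ (1 - s) * (b / a) ^ (1 - s) := mul_le_mul_of_nonneg_left h2 h7.le
    _ = b ^ (1 - s) := h1.symm

theorem part_le {s : ℝ} (hs : 1 < s) (n : ℕ) :
    ∑ i ∈ range (n + 2), (i : ℝ) ^ (-s) ≤ 1 + (1 - ((n + 1 : ℕ) : ℝ) ^ (1 - s)) / (s - 1) := by
  have hs1 : 0 < s - 1 := by linarith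
  induction n with
  | zero =>
    rw [Finset.sum_range_succ, Finset.sum_range_one]
    simp [Real.zero_rpow (show -s ≠ 0 by linarith)]
  | succ n ih =>
    rw [Finset.sum_range_succ]
    have h1 := tangent (a := ((n + 1 + 1 : ℕ) : ℝ)) (b := ((n + 1 : ℕ) : ℝ)) (s := s)
      (by positivity) (by positivity) hs.le
    have h2 : ((n + 1 : ℕ) : ℝ) - ((n + 1 + 1 : ℕ) : ℝ) = -1 := by push_cast; ring
    rw [h2] at h1
    have h3 : ((n + 2 : ℕ) : ℝ) ^ (-s) ≤
        (((n + 1 : ℕ) : ℝ) ^ (1 - s) - ((n + 1 + 1 : ℕ) : ℝ) ^ (1 - s)) / (s - 1) := by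
      rw [le_div_iff₀ hs1]
      have h4 : ((n + 2 : ℕ) : ℝ) = ((n + 1 + 1 : ℕ) : ℝ) := by push_cast; ring
      rw [h4]
      nlinarith
    have h5 : (1 - ((n + 1 : ℕ) : ℝ) ^ (1 - s)) / (s - 1) +
        (((n + 1 : ℕ) : ℝ) ^ (1 - s) - ((n + 1 + 1 : ℕ) : ℝ) ^ (1 - s)) / (s - 1) =
        (1 - ((n + 1 + 1 : ℕ) : ℝ) ^ (1 - s)) / (s - 1) := by
      rw [← add_div]
      congr 1
      ring
    have h6 : ((n + 1 + 1 : ℕ) : ℝ) ^ (-s) = ((n + 2 : ℕ) : ℝ) ^ (-s) := rfl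
    linarith

theorem le_part {s : ℝ} (hs : 1 < s) (n : ℕ) :
    (1 - ((n + 1 : ℕ) : ℝ) ^ (1 - s)) / (s - 1) ≤ ∑ i ∈ range (n + 1), (i : ℝ) ^ (-s) := by
  have hs1 : 0 < s - 1 := by linarith
  induction n with
  | zero =>
    rw [Finset.sum_range_one]
    simp [Real.zero_rpow (show -s ≠ 0 by linarith)]
  | succ n ih =>
    rw [Finset.sum_range_succ]
    have h1 := tangent (a := ((n + 1 : ℕ) : ℝ)) (b := ((n + 1 + 1 : ℕ) : ℝ)) (s := s)
      (by positivity) (by positivity) hs.le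
    have h2 : ((n + 1 + 1 : ℕ) : ℝ) - ((n + 1 : ℕ) : ℝ) = 1 := by push_cast; ring
    rw [h2] at h1
    have h3 : (((n + 1 : ℕ) : ℝ) ^ (1 - s) - ((n + 1 + 1 : ℕ) : ℝ) ^ (1 - s)) / (s - 1) ≤
        ((n + 1 : ℕ) : ℝ) ^ (-s) := by
      rw [div_le_iff₀ hs1]
      nlinarith
    have h5 : (1 - ((n + 1 : ℕ) : ℝ) ^ (1 - s)) / (s - 1) +
        (((n + 1 : ℕ) : ℝ) ^ (1 - s) - ((n + 1 + 1 : ℕ) : ℝ) ^ (1 - s)) / (s - 1) =
        (1 - ((n + 1 + 1 : ℕ) : ℝ) ^ (1 - s)) / (s - 1) := by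
      rw [← add_div]
      congr 1
      ring
    linarith

theorem Z_le {s : ℝ} (hs : 1 < s) : Z s ≤ 1 + 1 / (s - 1) := by
  have hs1 : 0 < s - 1 := by linarith
  refine Real.tsum_le_of_sum_range_le (fun n => by positivity) fun n => ?_
  have h1 : ∑ i ∈ range n, (i : ℝ) ^ (-s) ≤ ∑ i ∈ range (n + 2), (i : ℝ) ^ (-s) :=
    Finset.sum_le_sum_of_subset_of_nonneg (Finset.range_subset_range.2 (by omega))
      fun i _ _ => by positivity
  refine h1.trans ((part_le hs n).trans ?_)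
  have h2 : 0 ≤ ((n + 1 : ℕ) : ℝ) ^ (1 - s) := by positivity
  have h3 : (1 - ((n + 1 : ℕ) : ℝ) ^ (1 - s)) / (s - 1) ≤ 1 / (s - 1) :=
    div_le_div_of_nonneg_right (by linarith) hs1.le
  linarith

theorem le_Z {s : ℝ} (hs : 1 < s) : 1 / (s - 1) ≤ Z s := by
  have hs1 : 0 < s - 1 := by linarith
  have h1 : Tendsto (fun n : ℕ => (1 - ((n + 1 : ℕ) : ℝ) ^ (1 - s)) / (s - 1)) atTop
      (𝓝 ((1 - 0) / (s - 1))) := by
    refine Tendsto.div_const (Tendsto.const_sub _ ?_) _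
    have h2 : Tendsto (fun x : ℝ => x ^ (-(s - 1))) atTop (𝓝 0) := tendsto_rpow_neg_atTop hs1
    have h3 : Tendsto (fun n : ℕ => ((n + 1 : ℕ) : ℝ)) atTop atTop :=
      (tendsto_natCast_atTop_atTop).comp (tendsto_add_atTop_nat 1)
    have h4 := h2.comp h3
    refine h4.congr fun n => ?_
    show ((n + 1 : ℕ) : ℝ) ^ (-(s - 1)) = _
    congr 1
    ring
  rw [sub_zero] at h1
  refine le_of_tendsto h1 (Eventually.of_forall fun n => ?_)
  exact (le_part hs n).trans ((summ hs).sum_le_tsum _ fun i _ => by positivity)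

theorem Z_pos {s : ℝ} (hs : 1 < s) : 0 < Z s :=
  lt_of_lt_of_le (by have : 0 < s - 1 := by linarith
                     positivity) (le_Z hs)

theorem tend {s : ℝ} (hs : 1 < s) :
    Tendsto (fun n : ℕ => ∏ p ∈ Nat.primesBelow n, (1 - (p : ℝ) ^ (-s))⁻¹) atTop (𝓝 (Z s)) := by
  have hs0 : s ≠ 0 := by linarith
  have h := EulerProduct.eulerProduct_completely_multiplicative (f := zf s hs0) (by
    have := (summ hs).norm
    exact this)
  exact h

theorem pw_lt {s : ℝ} (hs : 1 < s) {p : ℕ} (hp : p.Prime) : (p : ℝ) ^ (-s) ≤ 1 / 2 := by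
  have h2 : (2 : ℝ) ≤ p := by exact_mod_cast hp.two_le
  calc (p : ℝ) ^ (-s) ≤ (p : ℝ) ^ (-1 : ℝ) :=
        Real.rpow_le_rpow_of_exponent_le (by linarith) (by linarith)
    _ = (p : ℝ)⁻¹ := Real.rpow_neg_one _
    _ ≤ 1 / 2 := by
        rw [one_div]
        exact inv_anti₀ (by norm_num) h2

theorem exp_ratio {a b : ℝ} (hb : 0 ≤ b) (hba : b ≤ a) (ha : a < 1) :
    Real.exp (a - b) ≤ (1 - a)⁻¹ / (1 - b)⁻¹ := by
  have ha1 : 0 < 1 - a := by linarith
  have hb1 : 0 < 1 - b := by linarith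
  rw [div_inv_eq_mul, inv_mul_eq_div, le_div_iff₀ ha1]
  have h1 := Real.add_one_le_exp (-(a - b))
  have h2 := Real.exp_pos (a - b)
  have h3 : Real.exp (a - b) * Real.exp (-(a - b)) = 1 := by
    rw [← Real.exp_add]; simp
  have h4 : Real.exp (a - b) * (1 - (a - b)) ≤ 1 := by
    calc Real.exp (a - b) * (1 - (a - b)) ≤ Real.exp (a - b) * Real.exp (-(a - b)) :=
          mul_le_mul_of_nonneg_left (by linarith) h2.le
      _ = 1 := h3
  have h5 : 1 ≤ Real.exp (a - b) := Real.one_le_exp (by linarith)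
  nlinarith

theorem ratio {s t : ℝ} (hs : 1 < s) (hst : s ≤ t) (n : ℕ) :
    Real.exp (∑ p ∈ Nat.primesBelow n, ((p : ℝ) ^ (-s) - (p : ℝ) ^ (-t))) ≤ Z s / Z t := by
  have ht : 1 < t := by linarith
  set R : ℕ → ℝ := fun n => (∏ p ∈ Nat.primesBelow n, (1 - (p : ℝ) ^ (-s))⁻¹) /
    ∏ p ∈ Nat.primesBelow n, (1 - (p : ℝ) ^ (-t))⁻¹ with hR
  have hR' : ∀ n, R n = ∏ p ∈ Nat.primesBelow n,
      ((1 - (p : ℝ) ^ (-s))⁻¹ / (1 - (p : ℝ) ^ (-t))⁻¹) := fun n => by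
    rw [hR]
    simp only
    rw [Finset.prod_div_distrib]
  have hb : ∀ p : ℕ, p.Prime → (p : ℝ) ^ (-t) ≤ (p : ℝ) ^ (-s) := fun p hp => by
    have h2 : (2 : ℝ) ≤ p := by exact_mod_cast hp.two_le
    exact Real.rpow_le_rpow_of_exponent_le (by linarith) (by linarith)
  have hterm : ∀ p : ℕ, p.Prime → Real.exp ((p : ℝ) ^ (-s) - (p : ℝ) ^ (-t)) ≤
      (1 - (p : ℝ) ^ (-s))⁻¹ / (1 - (p : ℝ) ^ (-t))⁻¹ := fun p hp =>
    exp_ratio (by positivity) (hb p hp) (by linarith [pw_lt hs hp])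
  have hone : ∀ p : ℕ, p.Prime → 1 ≤ (1 - (p : ℝ) ^ (-s))⁻¹ / (1 - (p : ℝ) ^ (-t))⁻¹ :=
    fun p hp => (Real.one_le_exp (by linarith [hb p hp])).trans (hterm p hp)
  have hpos : ∀ n, 0 < R n := fun n => by
    rw [hR']
    refine Finset.prod_pos fun p hp => ?_
    exact lt_of_lt_of_le one_pos (hone p (Nat.prime_of_mem_primesBelow hp))
  have hmono : Monotone R := by
    refine monotone_nat_of_le_succ fun n => ?_
    rw [hR', hR', Nat.primesBelow_succ]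
    split_ifs with h
    · rw [Finset.prod_insert (Nat.notMem_primesBelow n)]
      have h1 := hpos n
      rw [hR'] at h1
      exact le_mul_of_one_le_left h1.le (hone n h)
    · exact le_rfl
  have hlim : Tendsto R atTop (𝓝 (Z s / Z t)) := (tend hs).div (tend ht) (Z_pos ht).ne'
  refine le_trans ?_ (hmono.ge_of_tendsto hlim n)
  rw [hR', Real.exp_sum]
  refine Finset.prod_le_prod (fun p _ => (Real.exp_pos _).le) fun p hp => ?_
  exact hterm p (Nat.prime_of_mem_primesBelow hp)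

/-- sums over primes of differences -/
theorem Z3 {a b : ℝ} (ha : 0 < a) (hab : a ≤ b) (n : ℕ) :
    ∑ p ∈ Nat.primesBelow n, ((p : ℝ) ^ (-(1 + 2 * a)) - (p : ℝ) ^ (-(1 + 2 * b))) ≤
      Real.log (2 * b + b / a) := by
  have hb : 0 < b := by linarith
  have h1 := ratio (s := 1 + 2 * a) (t := 1 + 2 * b) (by linarith) (by linarith) n
  have h2 := Z_le (s := 1 + 2 * a) (by linarith)
  have h3 := le_Z (s := 1 + 2 * b) (by linarith)
  have e1 : 1 + 2 * a - 1 = 2 * a := by ring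
  have e2 : 1 + 2 * b - 1 = 2 * b := by ring
  rw [e1] at h2
  rw [e2] at h3
  rw [← Real.exp_le_exp, Real.exp_log (by positivity)]
  refine h1.trans ?_
  have hZ := Z_pos (s := 1 + 2 * b) (by linarith)
  rw [div_le_iff₀ hZ]
  calc Z (1 + 2 * a) ≤ 1 + 1 / (2 * a) := h2
    _ = (2 * b + b / a) * (1 / (2 * b)) := by
        field_simp
    _ ≤ (2 * b + b / a) * Z (1 + 2 * b) := mul_le_mul_of_nonneg_left h3 (by positivity)

theorem K1 {y : ℝ} (hy : 0 < y) (hy1 : y ≤ 1) (n : ℕ) :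
    ∑ p ∈ Nat.primesBelow n, Real.log p ^ 2 * (p : ℝ) ^ (-(1 + 2 * y)) ≤ 6 / y ^ 2 := by
  have h1 := Z3 (a := y / 2) (b := y) (by linarith) (by linarith) n
  have h2 : Real.log (2 * y + y / (y / 2)) ≤ 3 := by
    have e : y / (y / 2) = 2 := by field_simp
    rw [e]
    refine (Real.log_le_sub_one_of_pos (by positivity)).trans ?_
    linarith
  have h3 : ∑ p ∈ Nat.primesBelow n, y ^ 2 / 2 * (Real.log p ^ 2 * (p : ℝ) ^ (-(1 + 2 * y))) ≤ 3 := by
    refine le_trans (Finset.sum_le_sum fun p hp => ?_) (h1.trans h2)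
    have hpp := Nat.prime_of_mem_primesBelow hp
    have hp0 : (0 : ℝ) < p := by exact_mod_cast hpp.pos
    have hl : 0 ≤ Real.log p := Real.log_nonneg (by exact_mod_cast hpp.one_lt.le)
    have e : (p : ℝ) ^ (-(1 + 2 * (y / 2))) = (p : ℝ) ^ (-(1 + 2 * y)) * Real.exp (y * Real.log p) := by
      have e1 : -(1 + 2 * (y / 2)) = -(1 + 2 * y) + y := by ring
      rw [e1, Real.rpow_add hp0, Real.rpow_def_of_pos hp0 y, mul_comm (Real.log p)]
    rw [e]
    have hq : 0 < (p : ℝ) ^ (-(1 + 2 * y)) := Real.rpow_pos_of_pos hp0 _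
    have h4 := Real.quadratic_le_exp_of_nonneg (x := y * Real.log p) (by positivity)
    have h5 : 0 ≤ y * Real.log p := by positivity
    calc y ^ 2 / 2 * (Real.log p ^ 2 * (p : ℝ) ^ (-(1 + 2 * y)))
        = (p : ℝ) ^ (-(1 + 2 * y)) * ((y * Real.log p) ^ 2 / 2) := by ring
      _ ≤ (p : ℝ) ^ (-(1 + 2 * y)) * (Real.exp (y * Real.log p) - 1) :=
          mul_le_mul_of_nonneg_left (by linarith) hq.le
      _ = _ := by ring
  rw [← Finset.mul_sum] at h3
  rw [le_div_iff₀ (by positivity)]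
  nlinarith

theorem P3 (n : ℕ) : ∑ p ∈ Nat.primesBelow n, (p : ℝ) ^ (-(1 + 2 * (1 : ℝ))) ≤ 3 / 2 := by
  have h1 : (1 : ℝ) < 1 + 2 * 1 := by norm_num
  have h2 := Z_le h1
  have h3 := (summ h1).sum_le_tsum (Nat.primesBelow n) fun i _ => by positivity
  have h4 : (1 : ℝ) + 1 / (1 + 2 * 1 - 1) = 3 / 2 := by norm_num
  rw [h4] at h2
  exact h3.trans h2

/-- the multiplicative function -/
def mf (F : ℕ → ℝ) (s : ℝ) (j : ℕ) : ℝ := (∏ p ∈ j.primeFactors, F p) / (j : ℝ) ^ s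

theorem mf_prod {F : ℕ → ℝ} (hF : ∀ p, 0 ≤ F p) {s : ℝ} (hs : 1 < s) (N : ℕ) :
    ∑ j ∈ Finset.Icc 1 N, mf F s j ≤
      Real.exp (2 * ∑ p ∈ Nat.primesBelow (N + 1), F p * (p : ℝ) ^ (-s)) := by
  have hone : mf F s 1 = 1 := by simp [mf]
  have hmul : ∀ {m n : ℕ}, Nat.Coprime m n → mf F s (m * n) = mf F s m * mf F s n := by
    intro m n h
    unfold mf
    rw [h.primeFactors_mul, Finset.prod_union h.disjoint_primeFactors, Nat.cast_mul,
      Real.mul_rpow (by positivity) (by positivity)]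
    rw [mul_div_mul_comm]
  have hnn : ∀ j, 0 ≤ mf F s j := fun j =>
    div_nonneg (Finset.prod_nonneg fun p _ => hF p) (by positivity)
  have hpow : ∀ {p : ℕ}, p.Prime → ∀ e : ℕ, mf F s (p ^ (e + 1)) =
      F p * (p : ℝ) ^ (-s) * ((p : ℝ) ^ (-s)) ^ e := by
    intro p hp e
    have hp0 : (0 : ℝ) < p := by exact_mod_cast hp.pos
    unfold mf
    rw [Nat.primeFactors_prime_pow (Nat.succ_ne_zero e) hp, Finset.prod_singleton, mul_assoc,
      ← pow_succ', Real.rpow_neg hp0.le, inv_pow, Nat.cast_pow, ← Real.rpow_natCast (p : ℝ),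
      ← Real.rpow_natCast ((p : ℝ) ^ s), ← Real.rpow_mul hp0.le, ← Real.rpow_mul hp0.le,
      mul_comm s, div_eq_mul_inv]
  have hgeo : ∀ {p : ℕ}, p.Prime → HasSum (fun e => mf F s (p ^ (e + 1)))
      (F p * (p : ℝ) ^ (-s) * (1 - (p : ℝ) ^ (-s))⁻¹) := by
    intro p hp
    have h1 := pw_lt hs hp
    have h2 := hasSum_geometric_of_lt_one (r := (p : ℝ) ^ (-s)) (by positivity) (by linarith)
    have h3 := h2.mul_left (F p * (p : ℝ) ^ (-s))
    refine h3.congr_fun ?_ |> fun h => h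
    intro e
    exact hpow hp e
  have hsumm : ∀ {p : ℕ}, p.Prime → HasSum (fun e => mf F s (p ^ e))
      (1 + F p * (p : ℝ) ^ (-s) * (1 - (p : ℝ) ^ (-s))⁻¹) := by
    intro p hp
    have h1 := (hasSum_nat_add_iff (f := fun e => mf F s (p ^ e)) 1).1 (hgeo hp)
    rw [Finset.sum_range_one, pow_zero, hone, add_comm] at h1
    exact h1
  have hE := EulerProduct.summable_and_hasSum_smoothNumbers_prod_primesBelow_tsum
    (f := mf F s) hone hmul (fun {p} hp => (hsumm hp).summable.norm) (N + 1)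
  have hH : HasSum ((Nat.smoothNumbers (N + 1)).indicator (mf F s))
      (∏ p ∈ Nat.primesBelow (N + 1), ∑' e : ℕ, mf F s (p ^ e)) :=
    (hasSum_subtype_iff_indicator).1 hE.2
  have h1 : ∑ j ∈ Finset.Icc 1 N, mf F s j ≤
      ∏ p ∈ Nat.primesBelow (N + 1), ∑' e : ℕ, mf F s (p ^ e) := by
    have h2 : ∑ j ∈ Finset.Icc 1 N, mf F s j =
        ∑ j ∈ Finset.Icc 1 N, (Nat.smoothNumbers (N + 1)).indicator (mf F s) j := by
      refine Finset.sum_congr rfl fun j hj => ?_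
      rw [Finset.mem_Icc] at hj
      rw [Set.indicator_of_mem (Nat.mem_smoothNumbers_of_lt (by omega) (by omega))]
    rw [h2]
    exact sum_le_hasSum _ (fun j _ => Set.indicator_nonneg (fun j _ => hnn j) j) hH
  refine h1.trans ?_
  rw [Finset.mul_sum, Real.exp_sum]
  refine Finset.prod_le_prod (fun p _ => tsum_nonneg fun e => hnn _) fun p hp => ?_
  have hpp := Nat.prime_of_mem_primesBelow hp
  rw [(hsumm hpp).tsum_eq]
  have h3 := pw_lt hs hpp
  have h4 : (1 - (p : ℝ) ^ (-s))⁻¹ ≤ 2 := by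
    rw [inv_le_comm₀ (by linarith) (by norm_num)]
    linarith
  have h5 : 0 ≤ F p * (p : ℝ) ^ (-s) := mul_nonneg (hF p) (by positivity)
  have h6 := Real.add_one_le_exp (2 * (F p * (p : ℝ) ^ (-s)))
  nlinarith

/-- the factor at `p` -/
def fp (v : ℝ) (p : ℕ) : ℝ := ‖1 - Complex.exp (Complex.I * v * Real.log p)‖ ^ 2

theorem fp_nonneg (v : ℝ) (p : ℕ) : 0 ≤ fp v p := by unfold fp; positivity

theorem fp_le4 (v : ℝ) (p : ℕ) : fp v p ≤ 4 := by
  unfold fp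
  have h1 : ‖Complex.exp (Complex.I * v * Real.log p)‖ = 1 := by
    have : Complex.I * v * Real.log p = ((v * Real.log p : ℝ) : ℂ) * Complex.I := by
      push_cast; ring
    rw [this, Complex.norm_exp_ofReal_mul_I]
  have h2 := norm_sub_le (1 : ℂ) (Complex.exp (Complex.I * v * Real.log p))
  rw [h1, norm_one] at h2
  have h3 := norm_nonneg ((1 : ℂ) - Complex.exp (Complex.I * v * Real.log p))
  nlinarith

theorem fp_le (v : ℝ) (p : ℕ) : fp v p ≤ v ^ 2 * Real.log p ^ 2 := by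
  unfold fp
  have h1 : ‖1 - Complex.exp (Complex.I * v * Real.log p)‖ ≤ |v * Real.log p| := by
    have e : Complex.I * v * Real.log p = Complex.I * ((v * Real.log p : ℝ) : ℂ) := by
      push_cast; ring
    rw [e, norm_sub_rev]
    exact Real.norm_exp_I_mul_ofReal_sub_one_le
  calc ‖1 - Complex.exp (Complex.I * v * Real.log p)‖ ^ 2 ≤ |v * Real.log p| ^ 2 :=
        pow_le_pow_left₀ (norm_nonneg _) h1 2
    _ = v ^ 2 * Real.log p ^ 2 := by rw [sq_abs, mul_pow]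

/-- small `v` -/
theorem T_small {x v : ℝ} (hx : 0 < x) (hx1 : x ≤ 1) (n : ℕ) :
    ∑ p ∈ Nat.primesBelow n, fp v p * (p : ℝ) ^ (-(1 + 2 * x)) ≤ 6 * (|v| / x) ^ 2 := by
  calc ∑ p ∈ Nat.primesBelow n, fp v p * (p : ℝ) ^ (-(1 + 2 * x))
      ≤ ∑ p ∈ Nat.primesBelow n, v ^ 2 * (Real.log p ^ 2 * (p : ℝ) ^ (-(1 + 2 * x))) := by
        refine Finset.sum_le_sum fun p _ => ?_
        rw [← mul_assoc]
        exact mul_le_mul_of_nonneg_right (fp_le v p) (by positivity)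
    _ = v ^ 2 * ∑ p ∈ Nat.primesBelow n, Real.log p ^ 2 * (p : ℝ) ^ (-(1 + 2 * x)) := by
        rw [Finset.mul_sum]
    _ ≤ v ^ 2 * (6 / x ^ 2) := mul_le_mul_of_nonneg_left (K1 hx hx1 n) (sq_nonneg v)
    _ = 6 * (|v| / x) ^ 2 := by
        rw [div_pow, sq_abs]
        ring

/-- large `v` -/
theorem T_large {x v : ℝ} (hx : 0 < x) (hx1 : x ≤ 1) (hv : x ≤ |v|) (n : ℕ) :
    ∑ p ∈ Nat.primesBelow n, fp v p * (p : ℝ) ^ (-(1 + 2 * x)) ≤
      4 * Real.log (3 * (|v| / x)) + 6 := by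
  obtain ⟨b, hb, hxb, hb1, hT⟩ : ∃ b : ℝ, b ≤ |v| ∧ x ≤ b ∧ b ≤ 1 ∧
      ∑ p ∈ Nat.primesBelow n, fp v p * (p : ℝ) ^ (-(1 + 2 * b)) ≤ 6 := by
    by_cases h1 : |v| ≤ 1
    · refine ⟨|v|, le_rfl, hv, h1, ?_⟩
      have h2 := T_small (v := v) (lt_of_lt_of_le hx hv) h1 n
      rw [div_self (lt_of_lt_of_le hx hv).ne'] at h2
      linarith
    · push Not at h1
      refine ⟨1, h1.le, hx1, le_rfl, ?_⟩
      calc ∑ p ∈ Nat.primesBelow n, fp v p * (p : ℝ) ^ (-(1 + 2 * (1 : ℝ)))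
          ≤ ∑ p ∈ Nat.primesBelow n, 4 * (p : ℝ) ^ (-(1 + 2 * (1 : ℝ))) :=
            Finset.sum_le_sum fun p _ =>
              mul_le_mul_of_nonneg_right (fp_le4 v p) (by positivity)
        _ = 4 * ∑ p ∈ Nat.primesBelow n, (p : ℝ) ^ (-(1 + 2 * (1 : ℝ))) := by
            rw [Finset.mul_sum]
        _ ≤ 4 * (3 / 2) := mul_le_mul_of_nonneg_left (P3 n) (by norm_num)
        _ = 6 := by norm_num
  have hb0 : 0 < b := by linarith
  have h3 : ∑ p ∈ Nat.primesBelow n, fp v p * (p : ℝ) ^ (-(1 + 2 * x)) ≤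
      4 * (∑ p ∈ Nat.primesBelow n, ((p : ℝ) ^ (-(1 + 2 * x)) - (p : ℝ) ^ (-(1 + 2 * b)))) +
        ∑ p ∈ Nat.primesBelow n, fp v p * (p : ℝ) ^ (-(1 + 2 * b)) := by
    rw [Finset.mul_sum, ← Finset.sum_add_distrib]
    refine Finset.sum_le_sum fun p hp => ?_
    have hpp := Nat.prime_of_mem_primesBelow hp
    have hd : (p : ℝ) ^ (-(1 + 2 * b)) ≤ (p : ℝ) ^ (-(1 + 2 * x)) :=
      Real.rpow_le_rpow_of_exponent_le (by exact_mod_cast hpp.one_lt.le) (by linarith)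
    have h4 := fp_le4 v p
    nlinarith
  have h5 := Z3 hx hxb n
  have h6 : Real.log (2 * b + b / x) ≤ Real.log (3 * (|v| / x)) := by
    refine Real.log_le_log (by positivity) ?_
    have h7 : b ≤ b / x := by
      rw [le_div_iff₀ hx]
      nlinarith
    have h8 : b / x ≤ |v| / x := div_le_div_of_nonneg_right hb hx.le
    linarith
  linarith

theorem eul : Pool.Agent.H466.HD.S_EUL := by
  refine ⟨Real.exp 12 * (12 + 3 ^ 8), by positivity, ?_⟩
  intro x v N hx hx1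
  have hs : (1 : ℝ) < 1 + 2 * x := by linarith
  have hgoal : ∑ j ∈ Finset.Icc 2 N, (∏ p ∈ j.primeFactors,
      ‖1 - Complex.exp (Complex.I * v * Real.log p)‖ ^ 2) / (j : ℝ) ^ (1 + 2 * x) =
      ∑ j ∈ Finset.Icc 2 N, mf (fp v) (1 + 2 * x) j := rfl
  rw [hgoal]
  have hr0 : 0 ≤ |v| / x := by positivity
  have hrhs : 0 ≤ Real.exp 12 * (12 + 3 ^ 8) * ((|v| / x) ^ 2 + (|v| / x) ^ 8) := by positivity
  by_cases hN : N = 0
  · subst hN
    simpa using hrhs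
  have h1 := mf_prod (F := fp v) (fp_nonneg v) hs N
  have h2 : ∑ j ∈ Finset.Icc 1 N, mf (fp v) (1 + 2 * x) j =
      1 + ∑ j ∈ Finset.Icc 2 N, mf (fp v) (1 + 2 * x) j := by
    have h3 : Finset.Icc 1 N = insert 1 (Finset.Icc 2 N) := by
      ext j
      simp only [Finset.mem_Icc, Finset.mem_insert]
      omega
    rw [h3, Finset.sum_insert (by simp)]
    congr 1
    simp [mf]
  rw [h2] at h1
  set T := ∑ p ∈ Nat.primesBelow (N + 1), fp v p * (p : ℝ) ^ (-(1 + 2 * x)) with hT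
  by_cases hv : |v| ≤ x
  · have h4 := T_small (v := v) hx hx1 (N + 1)
    rw [← hT] at h4
    have hr1 : |v| / x ≤ 1 := by
      rw [div_le_one hx]
      exact hv
    have hr2 : (|v| / x) ^ 2 ≤ 1 := by nlinarith
    have h5 : Real.exp (2 * T) ≤ Real.exp (12 * (|v| / x) ^ 2) := by
      rw [Real.exp_le_exp]
      linarith
    have h6 : Real.exp (12 * (|v| / x) ^ 2) - 1 ≤ 12 * (|v| / x) ^ 2 * Real.exp 12 := by
      have h7 := Real.add_one_le_exp (-(12 * (|v| / x) ^ 2))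
      have h8 : Real.exp (12 * (|v| / x) ^ 2) * Real.exp (-(12 * (|v| / x) ^ 2)) = 1 := by
        rw [← Real.exp_add]; simp
      have h9 : Real.exp (12 * (|v| / x) ^ 2) ≤ Real.exp 12 := by
        rw [Real.exp_le_exp]
        linarith
      have h10 := Real.exp_pos (12 * (|v| / x) ^ 2)
      have h11 : Real.exp (12 * (|v| / x) ^ 2) * (1 - 12 * (|v| / x) ^ 2) ≤ 1 := by
        rw [← h8]
        exact mul_le_mul_of_nonneg_left (by linarith) h10.le
      have h12 : 12 * (|v| / x) ^ 2 * Real.exp (12 * (|v| / x) ^ 2) ≤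
          12 * (|v| / x) ^ 2 * Real.exp 12 :=
        mul_le_mul_of_nonneg_left h9 (by positivity)
      nlinarith
    have h13 : 0 ≤ (|v| / x) ^ 8 := by positivity
    have h14 : 0 ≤ (|v| / x) ^ 2 := by positivity
    have h15 := Real.exp_pos 12
    have h16 : 12 * (|v| / x) ^ 2 * Real.exp 12 ≤
        Real.exp 12 * (12 + 3 ^ 8) * ((|v| / x) ^ 2 + (|v| / x) ^ 8) := by
      have h17 : Real.exp 12 * (12 + 3 ^ 8) * ((|v| / x) ^ 2 + (|v| / x) ^ 8) -
          12 * (|v| / x) ^ 2 * Real.exp 12 =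
          Real.exp 12 * (3 ^ 8 * (|v| / x) ^ 2 + (12 + 3 ^ 8) * (|v| / x) ^ 8) := by ring
      have h18 : 0 ≤ Real.exp 12 * (3 ^ 8 * (|v| / x) ^ 2 + (12 + 3 ^ 8) * (|v| / x) ^ 8) := by
        positivity
      linarith
    linarith
  · push Not at hv
    have h4 := T_large hx hx1 hv.le (N + 1)
    rw [← hT] at h4
    have hpos : 0 < 3 * (|v| / x) := by
      have : 0 < |v| := by linarith
      positivity
    have h5 : Real.exp (2 * T) ≤ Real.exp 12 * (3 * (|v| / x)) ^ 8 := by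
      have e : Real.exp 12 * (3 * (|v| / x)) ^ 8 =
          Real.exp (12 + 8 * Real.log (3 * (|v| / x))) := by
        rw [Real.exp_add]
        congr 1
        have : (8 : ℝ) * Real.log (3 * (|v| / x)) = ((8 : ℕ) : ℝ) * Real.log (3 * (|v| / x)) := by
          norm_num
        rw [this, Real.exp_nat_mul, Real.exp_log hpos]
      rw [e, Real.exp_le_exp]
      linarith
    have h13 : 0 ≤ (|v| / x) ^ 8 := by positivity
    have h14 : 0 ≤ (|v| / x) ^ 2 := by positivity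
    have h17 : Real.exp 12 * (12 + 3 ^ 8) * ((|v| / x) ^ 2 + (|v| / x) ^ 8) -
        Real.exp 12 * (3 * (|v| / x)) ^ 8 =
        Real.exp 12 * ((12 + 3 ^ 8) * (|v| / x) ^ 2 + 12 * (|v| / x) ^ 8) := by ring
    have h18 : 0 ≤ Real.exp 12 * ((12 + 3 ^ 8) * (|v| / x) ^ 2 + 12 * (|v| / x) ^ 8) := by
      positivity
    linarith

end

end Pool.Agent.H734.HD
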